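import Pool.Agent.Lib.MP_7f190d_al.Interfaces

/-!
# MP_7f190d_al, module B: basic geometry of `GMet`
-/

set_option autoImplicit false

namespace Pool.Agent.Lib.MP_7f190d_al

variable {V : Type}

namespace GMet

lemma btw_symm {M : GMet V} {x z y : V} (h : M.Btw x z y) : M.Btw y z x := by
  unfold Btw at *
  rw [M.symm y z, M.symm z x, M.symm y x]; omega

lemma btw_left (M : GMet V) (x y : V) : M.Btw x x y := by
  unfold Btw; rw [M.self]; omega

lemma btw_right (M : GMet V) (x y : V) : M.Btw x y y := by
  unfold Btw; rw [M.self]; omega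

/-- the point at distance `k` from `x` on some geodesic from `x` to `y`. -/
lemma exists_pt (M : GMet V) (x y : V) (k : ℕ) (hk : k ≤ M.d x y) :
    ∃ z, M.Btw x z y ∧ M.d x z = k := by
  obtain ⟨z, h1, h2⟩ := M.geod x y k hk
  exact ⟨z, by unfold Btw; omega, h1⟩

/-- `Btw x z y` and `Btw x w z` imply `Btw x w y`. -/
lemma btw_trans_left {M : GMet V} {x w z y : V} (h : M.Btw x z y) (h' : M.Btw x w z) :
    M.Btw x w y := by
  unfold Btw at *
  have h1 := M.tri w z y
  have h2 := M.tri x w y
  omega

/-- `Btw x z y` and `Btw z w y` imply `Btw x w y`. -/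
lemma btw_trans_right {M : GMet V} {x w z y : V} (h : M.Btw x z y) (h' : M.Btw z w y) :
    M.Btw x w y := by
  unfold Btw at *
  have h1 := M.tri x z w
  have h2 := M.tri x w y
  omega

/-- `Btw x z y` and `Btw x w z` imply `Btw w z y`. -/
lemma btw_cut_left {M : GMet V} {x w z y : V} (h : M.Btw x z y) (h' : M.Btw x w z) :
    M.Btw w z y := by
  unfold Btw at *
  have h1 := M.tri w z y
  have h2 := M.tri x w y
  omega

/-- `Btw x z y` and `Btw z w y` imply `Btw x z w`. -/
lemma btw_cut_right {M : GMet V} {x w z y : V} (h : M.Btw x z y) (h' : M.Btw z w y) :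
    M.Btw x z w := by
  unfold Btw at *
  have h1 := M.tri x z w
  have h2 := M.tri x w y
  omega

/-- a geodesic between two points -/
lemma exists_isGeod (M : GMet V) (x y : V) : ∃ γ : ℕ → V, M.IsGeod γ x y := by
  classical
  -- by induction on the distance
  obtain ⟨n, hn⟩ : ∃ n, n = M.d x y := ⟨_, rfl⟩
  induction n generalizing x with
  | zero =>
    have hxy := M.eq0 x y hn.symm
    refine ⟨fun _ => x, rfl, hxy, ?_⟩
    intro i j hij hj
    simp only [M.self]; omega
  | succ n ih =>
    obtain ⟨z, h1, h2⟩ := M.geod x y 1 (by omega)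
    obtain ⟨γ, g0, g1, g2⟩ := ih z (by omega)
    have hzy : M.d z y = n := by omega
    refine ⟨fun i => if i = 0 then x else γ (i - 1), by simp, ?_, ?_⟩
    · show (if M.d x y = 0 then x else γ (M.d x y - 1)) = y
      rw [if_neg (by omega), ← hn]
      simpa [hzy] using g1
    · intro i j hij hj
      by_cases hi : i = 0
      · by_cases hj0 : j = 0
        · simp [hi, hj0, M.self]
        · simp only [hi, hj0, if_true, if_false]
          -- d x (γ (j-1)) = j
          have e1 : M.d (γ 0) (γ (j - 1)) = j - 1 := by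
            have := g2 0 (j - 1) (by omega) (by omega)
            omega
          have e2 : M.d (γ (j - 1)) (γ (M.d z y)) = M.d z y - (j - 1) :=
            g2 (j - 1) (M.d z y) (by omega) le_rfl
          rw [g0] at e1
          rw [g1] at e2
          have t1 := M.tri x z (γ (j - 1))
          have t2 := M.tri x (γ (j - 1)) y
          omega
      · have hj0 : j ≠ 0 := by omega
        simp only [hi, hj0, if_false]
        have := g2 (i - 1) (j - 1) (by omega) (by omega)
        omega

lemma IsGeod.btw {M : GMet V} {γ : ℕ → V} {x y : V} (h : M.IsGeod γ x y) {i : ℕ}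
    (hi : i ≤ M.d x y) : M.Btw x (γ i) y := by
  obtain ⟨g0, g1, g2⟩ := h
  have e1 := g2 0 i (by omega) hi
  have e2 := g2 i (M.d x y) hi le_rfl
  rw [g0] at e1
  rw [g1] at e2
  unfold Btw; omega

lemma IsGeod.dist_left {M : GMet V} {γ : ℕ → V} {x y : V} (h : M.IsGeod γ x y) {i : ℕ}
    (hi : i ≤ M.d x y) : M.d x (γ i) = i := by
  obtain ⟨g0, g1, g2⟩ := h
  have e1 := g2 0 i (by omega) hi
  rw [g0] at e1
  omega

lemma IsGeod.dist_right {M : GMet V} {γ : ℕ → V} {x y : V} (h : M.IsGeod γ x y) {i : ℕ}
    (hi : i ≤ M.d x y) : M.d (γ i) y = M.d x y - i := by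
  obtain ⟨g0, g1, g2⟩ := h
  have e2 := g2 i (M.d x y) hi le_rfl
  rwa [g1] at e2

lemma IsGeod.step {M : GMet V} {γ : ℕ → V} {x y : V} (h : M.IsGeod γ x y) {i : ℕ}
    (hi : i < M.d x y) : M.d (γ i) (γ (i + 1)) = 1 := by
  have := h.2.2 i (i + 1) (by omega) (by omega)
  omega

/-- B1 -/
theorem B1 : B1Statement := by
  intro V M x z y h
  obtain ⟨γ, hγ⟩ := M.exists_isGeod x z
  obtain ⟨η, hη⟩ := M.exists_isGeod z y
  have hb : M.d x z + M.d z y = M.d x y := h
  refine ⟨fun i => if i ≤ M.d x z then γ i else η (i - M.d x z), ⟨by simp [hγ.1], ?_, ?_⟩,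
    by simp [hγ.2.1]⟩
  · by_cases h0 : M.d x y ≤ M.d x z
    · have : M.d z y = 0 := by omega
      have hzy := M.eq0 _ _ this
      simp only [if_pos h0]
      have h1 : M.d x y = M.d x z := by omega
      rw [h1, hγ.2.1, hzy]
    · simp only [if_neg h0]
      have h1 : M.d x y - M.d x z = M.d z y := by omega
      rw [h1, hη.2.1]
  · intro i j hij hj
    by_cases hj' : j ≤ M.d x z
    · have hi' : i ≤ M.d x z := by omega
      simp only [if_pos hi', if_pos hj']
      exact hγ.2.2 i j hij hj'
    · by_cases hi' : i ≤ M.d x z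
      · simp only [if_pos hi', if_neg hj']
        have a1 := hγ.dist_left hi'
        have a2 := hγ.dist_right hi'
        have b1 := hη.dist_left (i := j - M.d x z) (by omega)
        have b2 := hη.dist_right (i := j - M.d x z) (by omega)
        have t1 := M.tri (γ i) z (η (j - M.d x z))
        have t2 := M.tri x (γ i) (η (j - M.d x z))
        have t3 := M.tri x (η (j - M.d x z)) y
        omega
      · simp only [if_neg hi', if_neg hj']
        have := hη.2.2 (i - M.d x z) (j - M.d x z) (by omega) (by omega)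
        omega

/-- B2: thin triangles. -/
theorem B2 : B2Statement := by
  intro V M δ hM x y z w hw
  have hw' : M.d x w + M.d w y = M.d x y := hw
  by_cases hs : 2 * M.d x w + M.d y z ≤ M.d x y + M.d x z
  · have t := M.tri x y z
    have hle : M.d x w ≤ M.d x z := by
      have := M.tri x z y
      have := M.symm z y
      omega
    obtain ⟨w', hb, hd⟩ := M.exists_pt x z (M.d x w) hle
    refine ⟨w', Or.inl hb, ?_⟩
    have hb' : M.d x w' + M.d w' z = M.d x z := hb
    have h1 := hM y x w' z
    have h2 := hM w' x w y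
    have s1 := M.symm y x
    have s2 := M.symm w' x
    have s3 := M.symm w' y
    have s4 := M.symm w' w
    have s5 := M.symm z y
    rw [s1, s3.symm] at h1
    omega
  · have t := M.tri y x z
    have hle : M.d w y ≤ M.d y z := by
      have := M.tri x z y
      have := M.symm z y
      have := M.symm x z
      have := M.symm y x
      omega
    obtain ⟨w', hb, hd⟩ := M.exists_pt y z (M.d w y) hle
    refine ⟨w', Or.inr (btw_symm hb), ?_⟩
    have hb' : M.d y w' + M.d w' z = M.d y z := hb
    have h1 := hM x y w' z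
    have h2 := hM w' y w x
    have s1 := M.symm y x
    have s2 := M.symm w' x
    have s3 := M.symm w' y
    have s4 := M.symm w' w
    have s5 := M.symm z x
    have s6 := M.symm w y
    have s7 := M.symm w x
    omega

/-- B3: thin quadrilaterals. -/
theorem B3 : B3Statement := by
  intro V M δ hM x y x' y' p p' B hp hp' h1 h2 h3 h4 h5 h6
  have e1 : M.d x p + M.d p y = M.d x y := hp
  have e2 : M.d x' p' + M.d p' y' = M.d x' y' := hp'
  have a1 := hM x x' p' y'
  have a2 := hM y y' p' x'
  have a3 := hM p x p' y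
  have s1 := M.symm p' x
  have s2 := M.symm p' y
  have s3 := M.symm y' x'
  have s4 := M.symm p' x'
  have s5 := M.symm p x
  have s6 := M.symm x' p'
  have s7 := M.symm y' p'
  have s8 := M.symm p' y'
  have s9 := M.symm y x'
  have s10 := M.symm x' y
  omega

/-- two points of geodesics from `x` to `y`, at the same distance from `x` -/
lemma close_of_btw {M : GMet V} {δ : ℕ} (hM : M.Hyp δ) {x y p p' : V} (hp : M.Btw x p y)
    (hp' : M.Btw x p' y) (h : M.d x p = M.d x p') : M.d p p' ≤ 4 * δ := by
  have e1 : M.d x p + M.d p y = M.d x y := hp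
  have e2 : M.d x p' + M.d p' y = M.d x y := hp'
  have := B3 V M δ hM x y x y p p' 0 hp hp' h (by omega) (by rw [M.self]; omega)
    (by rw [M.self]; omega) (by omega) (by rw [M.symm y x]; omega)
  omega

/-- the points of a path -/
theorem B4 : B4Statement := by
  intro V M δ hM K
  induction K with
  | zero =>
    intro N γ s hN hγ hs
    have hs' : M.d (γ 0) s + M.d s (γ N) = M.d (γ 0) (γ N) := hs
    rcases Nat.eq_zero_or_pos N with h | h
    · subst h
      rw [M.self] at hs'
      exact ⟨0, le_rfl, by rw [M.symm]; omega⟩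
    · have hN1 : N = 1 := by simp at hN; omega
      subst hN1
      have h1 := hγ 0 (by omega)
      simp only [zero_add] at h1
      by_cases h0 : M.d (γ 0) s = 0
      · exact ⟨0, by omega, by rw [M.symm]; omega⟩
      · exact ⟨1, le_rfl, by omega⟩
  | succ K ih =>
    intro N γ s hN hγ hs
    obtain ⟨w', hw', hd⟩ := B2 V M δ hM (γ 0) (γ N) (γ (N / 2)) s hs
    have hpow : 2 ^ (K + 1) = 2 * 2 ^ K := by ring
    rcases hw' with hw' | hw'
    · obtain ⟨i, hi, hi'⟩ := ih (N / 2) γ w' (by omega) (fun i hi => hγ i (by omega)) hw'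
      refine ⟨i, by omega, ?_⟩
      have := M.tri s w' (γ i)
      have : 4 * δ * (K + 1) = 4 * δ * K + 4 * δ := by ring
      omega
    · obtain ⟨i, hi, hi'⟩ := ih (N - N / 2) (fun i => γ (N / 2 + i)) w' (by omega)
        (fun i hi => by
          have := hγ (N / 2 + i) (by omega)
          simpa [add_assoc] using this) (by
          have e : N / 2 + (N - N / 2) = N := by omega
          simpa [e] using hw')
      refine ⟨N / 2 + i, by omega, ?_⟩
      have := M.tri s w' (γ (N / 2 + i))
      have : 4 * δ * (K + 1) = 4 * δ * K + 4 * δ := by ring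
      omega

/-- slim triangles: the transition point -/
lemma exists_transition (M : GMet V) (σ : ℕ)
    (hσ : ∀ x y z w : V, M.Btw x w y → ∃ w', (M.Btw x w' z ∨ M.Btw z w' y) ∧ M.d w w' ≤ σ)
    (x z y : V) {γ : ℕ → V} (hγ : M.IsGeod γ x z) :
    ∃ i ≤ M.d x z, M.d x (γ i) + M.d (γ i) y ≤ M.d x y + 2 * σ ∧
      M.d y (γ i) + M.d (γ i) z ≤ M.d y z + 2 * σ + 2 := by
  classical
  -- `P i`: close to `[x, y]`
  let P : ℕ → Prop := fun i => ∃ w, M.Btw x w y ∧ M.d (γ i) w ≤ σ
  have hP0 : P 0 := ⟨x, M.btw_left x y, by rw [hγ.1, M.self]; omega⟩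
  obtain ⟨i, hi, hPi, hmax⟩ : ∃ i ≤ M.d x z, P i ∧ ∀ j ≤ M.d x z, P j → j ≤ i := by
    have hne : ((Finset.range (M.d x z + 1)).filter P).Nonempty :=
      ⟨0, by simp [hP0]⟩
    refine ⟨((Finset.range (M.d x z + 1)).filter P).max' hne, ?_, ?_, ?_⟩
    · have := Finset.max'_mem _ hne
      simp only [Finset.mem_filter, Finset.mem_range] at this
      omega
    · have := Finset.max'_mem _ hne
      simp only [Finset.mem_filter, Finset.mem_range] at this
      exact this.2
    · intro j hj hPj
      exact Finset.le_max' _ _ (by simp [hPj]; omega)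
  refine ⟨i, hi, ?_, ?_⟩
  · obtain ⟨w, hw, hd⟩ := hPi
    have hw' : M.d x w + M.d w y = M.d x y := hw
    have t1 := M.tri x w (γ i)
    have t2 := M.tri (γ i) w y
    have s1 := M.symm w (γ i)
    omega
  · by_cases hlast : i = M.d x z
    · rw [hlast, hγ.2.1, M.self]
      omega
    · have hb := hγ.btw (i := i + 1) (by omega)
      obtain ⟨w', hw', hd⟩ := hσ x z y (γ (i + 1)) hb
      rcases hw' with hw' | hw'
      · exact absurd (hmax (i + 1) (by omega) ⟨w', hw', hd⟩) (by omega)
      · have hw'' : M.d y w' + M.d w' z = M.d y z := hw'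
        have st := hγ.step (i := i) (by omega)
        have t1 := M.tri (γ i) (γ (i + 1)) w'
        have t2 := M.tri y w' (γ i)
        have t3 := M.tri (γ i) w' z
        have s1 := M.symm w' (γ i)
        omega

theorem B5 : B5Statement := by
  intro V M σ hσ x y z t
  obtain ⟨γ, hγ⟩ := M.exists_isGeod x z
  obtain ⟨i, hi, p1, p2⟩ := exists_transition M σ hσ x z y hγ
  obtain ⟨j, hj, q1, q2⟩ := exists_transition M σ hσ x z t hγ
  have a1 := hγ.dist_left hi
  have a2 := hγ.dist_right hi
  have b1 := hγ.dist_left hj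
  have b2 := hγ.dist_right hj
  have s1 := M.symm (γ i) y
  have s2 := M.symm (γ j) t
  have s3 := M.symm (γ i) (γ j)
  have t1 := M.tri y (γ i) (γ j)
  have t2 := M.tri y (γ j) t
  have s4 := M.symm z t
  rcases le_total i j with hij | hij
  · have c := hγ.2.2 i j hij hj
    omega
  · have c := hγ.2.2 j i hij hi
    omega

end GMet

end Pool.Agent.Lib.MP_7f190d_al
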