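import Mathlib

/-!
# MP_7f190d_al, project Burnside: definitions

See `Blueprint.md` for the paper proof. This file contains the definitions used by all modules.
-/

set_option autoImplicit false

namespace Pool.Agent.Lib.MP_7f190d_al

/-! ## Geodesic metrics with values in `ℕ` -/

/-- A metric with values in `ℕ` such that any two points are joined by a geodesic. -/
structure GMet (V : Type) where
  /-- the distance -/
  d : V → V → ℕ
  self : ∀ x, d x x = 0
  eq0 : ∀ x y, d x y = 0 → x = y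
  symm : ∀ x y, d x y = d y x
  tri : ∀ x y z, d x z ≤ d x y + d y z
  geod : ∀ x y k, k ≤ d x y → ∃ z, d x z = k ∧ k + d z y = d x y

section GMet

variable {V : Type}

/-- The four point condition with constant `δ`. -/
def GMet.Hyp (M : GMet V) (δ : ℕ) : Prop :=
  ∀ x y z t, M.d x z + M.d y t ≤ max (M.d x y + M.d z t) (M.d x t + M.d y z) + 2 * δ

/-- `z` lies on a geodesic from `x` to `y`. -/
def GMet.Btw (M : GMet V) (x z y : V) : Prop := M.d x z + M.d z y = M.d x y

/-- every geodesic from `x` to `z` passes through `v`. -/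
def GMet.Sep (M : GMet V) (x v z : V) : Prop :=
  M.Btw x v z ∧ ∀ u, M.Btw x u z → M.d x u = M.d x v → u = v

/-- `γ` (restricted to `[0, d u v]`) is a geodesic from `u` to `v`. -/
def GMet.IsGeod (M : GMet V) (γ : ℕ → V) (u v : V) : Prop :=
  γ 0 = u ∧ γ (M.d u v) = v ∧ ∀ i j, i ≤ j → j ≤ M.d u v → M.d (γ i) (γ j) = j - i

/-- `a` is a nearest point to `x` in `Y`. -/
def GMet.Nst (M : GMet V) (Y : Set V) (x a : V) : Prop := a ∈ Y ∧ ∀ y ∈ Y, M.d x a ≤ M.d x y

/-- `Y` is `q`-quasi-convex. -/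
def GMet.QC (M : GMet V) (Y : Set V) (q : ℕ) : Prop :=
  ∀ x ∈ Y, ∀ y ∈ Y, ∀ p, M.Btw x p y → ∃ y' ∈ Y, M.d p y' ≤ q

/-- The group `G` acts by isometries. -/
def Iso (G : Type) [Group G] [MulAction G V] (M : GMet V) : Prop :=
  ∀ (g : G) x y, M.d (g • x) (g • y) = M.d x y

end GMet

/-! ## Guessing geodesics (module GG) -/

/-- A system of sets `Lx u v` which are coarsely paths with thin triangles. -/
structure GGSys {V : Type} (M : GMet V) (Lx : V → V → Set V) (h : ℕ) : Prop where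
  left : ∀ u v, u ∈ Lx u v
  right : ∀ u v, v ∈ Lx u v
  conn : ∀ (u v : V) (Q : V → Prop), Q u → ¬ Q v →
    ∃ b ∈ Lx u v, ∃ c ∈ Lx u v, Q b ∧ ¬ Q c ∧ M.d b c ≤ h
  thin : ∀ u v w, ∀ z ∈ Lx u v, ∃ t, (t ∈ Lx u w ∨ t ∈ Lx w v) ∧ M.d z t ≤ h
  small : ∀ u v, M.d u v ≤ 1 → ∀ z ∈ Lx u v, M.d z u ≤ h

/-- `Lx u v` is contained in the `H`-neighbourhood of every geodesic from `u` to `v`. -/
def GClose {V : Type} (M : GMet V) (Lx : V → V → Set V) (H : ℕ) : Prop :=
  ∀ u v γ, M.IsGeod γ u v → ∀ z ∈ Lx u v, ∃ i ≤ M.d u v, M.d z (γ i) ≤ H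

/-! ## The cone-off (modules CO, L, K) -/

/-- The data of a cone-off. -/
structure ConeDat (X : Type) where
  /-- the metric of `X` -/
  M : GMet X
  /-- the index set of the cones -/
  J : Type
  /-- the subsets which are coned off -/
  Y : J → Set X
  /-- the scale -/
  S : ℕ
  /-- the depth of the cones -/
  ρ : ℕ
  ne : ∀ j, (Y j).Nonempty
  hS : 2 ≤ S
  hρ : 10 ≤ ρ

/-- The vertices of the coned off graph. -/
inductive CV {X : Type} (C : ConeDat X) : Type
  | base (x : X) : CV C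
  | cone (j : C.J) (y : X) (hy : y ∈ C.Y j) (k : ℕ) (hk : 1 ≤ k ∧ k ≤ C.ρ) : CV C
  | apex (j : C.J) : CV C

section CV

variable {X : Type} {C : ConeDat X}

open Classical in
/-- The point of the cone `j` above `y` at height `m`: `base y` for `m = 0`, the apex for
`m > ρ`. -/
noncomputable def CV.pt (j : C.J) (y : X) (hy : y ∈ C.Y j) (m : ℕ) : CV C :=
  if h0 : m = 0 then CV.base y
  else if hm : m ≤ C.ρ then CV.cone j y hy m ⟨Nat.one_le_iff_ne_zero.mpr h0, hm⟩
  else CV.apex j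

/-- The (oriented) edges of the coned off graph. -/
inductive CV.E : CV C → CV C → Prop
  | base (x x' : X) (h : C.M.d x x' ≤ C.S) : CV.E (CV.base x) (CV.base x')
  | vert (j : C.J) (y : X) (hy : y ∈ C.Y j) (k : ℕ) : CV.E (CV.pt j y hy k) (CV.pt j y hy (k + 1))
  | horiz (j : C.J) (y y' : X) (hy : y ∈ C.Y j) (hy' : y' ∈ C.Y j) (k : ℕ)
      (h : C.M.d y y' ≤ 2 ^ k * C.S) : CV.E (CV.pt j y hy k) (CV.pt j y' hy' k)

/-- The coned off graph. -/
def CV.graph (C : ConeDat X) : SimpleGraph (CV C) := SimpleGraph.fromRel CV.E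

/-- The height. -/
def CV.ht : CV C → ℕ
  | CV.base _ => 0
  | CV.cone _ _ _ k _ => k
  | CV.apex _ => C.ρ + 1

open Classical in
/-- The height in the cone `j` (`0` outside this cone). -/
noncomputable def CV.htj (j : C.J) : CV C → ℕ
  | CV.base _ => 0
  | CV.cone i _ _ k _ => if i = j then k else 0
  | CV.apex i => if i = j then C.ρ + 1 else 0

/-- The centre in `X`. For an apex this is some chosen point of `Y j`. -/
noncomputable def CV.ctr : CV C → X
  | CV.base x => x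
  | CV.cone _ y _ _ _ => y
  | CV.apex j => (C.ne j).some

/-- a chosen nearest point of `Y j`. -/
noncomputable def ConeDat.pr (C : ConeDat X) (j : C.J) (x : X) : X :=
  Classical.epsilon (h := ⟨x⟩) fun a => C.M.Nst (C.Y j) x a

end CV

/-! ## Rotation systems (modules RT and Q) -/

/-- A group `G` acting by isometries on `V`, a family of vertices `apex j`, rotations `rot j` about
them, and angles `ang j x y` at `apex j` between `x` and `y`. -/
structure RotSys (G V J : Type) [Group G] [MulAction G V] [MulAction G J] (M : GMet V)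
    (apex : J → V) (rot : J → G) (ang : J → V → V → ℕ) (l θ : ℕ) : Prop where
  iso : Iso G M
  inj : Function.Injective apex
  eqv : ∀ (g : G) j, g • apex j = apex (g • j)
  rot_conj : ∀ (g : G) j, rot (g • j) = g * rot j * g⁻¹
  rot_fix : ∀ j, rot j • j = j
  ang_self : ∀ j x, x ≠ apex j → ang j x x = 0
  ang_symm : ∀ j x y, x ≠ apex j → y ≠ apex j → ang j x y = ang j y x
  ang_tri : ∀ j x y z, x ≠ apex j → y ≠ apex j → z ≠ apex j →
    ang j x z ≤ ang j x y + ang j y z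
  ang_eqv : ∀ (g : G) j x y, x ≠ apex j → y ≠ apex j →
    ang (g • j) (g • x) (g • y) = ang j x y
  ang_sep : ∀ j x y, x ≠ apex j → y ≠ apex j → θ < ang j x y → M.Sep x (apex j) y
  ang_zero : ∀ j w z, w ≠ apex j → z ≠ apex j → M.Sep (apex j) w z → ang j w z = 0
  ang_rot : ∀ j z (k : ℤ), z ≠ apex j → l * k.natAbs ≤ ang j z (rot j ^ k • z)
  big : 100 * (θ + 1) ≤ l

/-- The subgroup generated by the rotations. -/
def RotSub {G J : Type} [Group G] (rot : J → G) : Subgroup G := Subgroup.closure (Set.range rot)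

/-- The conclusion of the rotation theorem. -/
def RotRed {G V J : Type} [Group G] [MulAction G V] (apex : J → V) (rot : J → G)
    (ang : J → V → V → ℕ) (l : ℕ) : Prop :=
  ∀ x : V, (∀ j, x ≠ apex j) → ∃ rk : G → ℕ, ∀ g ∈ RotSub rot, g ≠ 1 →
    ∃ j, ∃ k : ℤ, l ≤ 2 * ang j x (g • x) ∧ rk (rot j ^ k * g) < rk g

/-- `(G', V')` is the quotient of `(G, V)` by the normal subgroup `R`. -/
structure QuotData {G V G' V' : Type} [Group G] [MulAction G V] [Group G'] [MulAction G' V']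
    (M : GMet V) (M' : GMet V') (R : Subgroup G) (π : G →* G') (p : V → V') : Prop where
  surj : Function.Surjective π
  ker : ∀ g, π g = 1 ↔ g ∈ R
  psurj : Function.Surjective p
  eqv : ∀ g x, p (g • x) = π g • p x
  dle : ∀ x y, M'.d (p x) (p y) ≤ M.d x y
  dex : ∀ x y, ∃ r ∈ R, M.d x (r • y) = M'.d (p x) (p y)

/-! ## Stages -/

section Stage

variable {Γ : Type} [Group Γ]

/-- `a` and `b` commute modulo `⟨z⟩`. -/
def CM (z a b : Γ) : Prop := a * b * a⁻¹ * b⁻¹ ∈ Subgroup.zpowers z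

/-- `g` has finite order modulo `⟨z⟩`. -/
def FO (z g : Γ) : Prop := ∃ m : ℕ, 1 ≤ m ∧ g ^ m ∈ Subgroup.zpowers z

/-- A group `Γ` with a central element `z` of infinite order, acting on the hyperbolic graph `X`
with `z` acting trivially; the geometric part of the stage hypotheses. -/
structure PreStage (Γ : Type) [Group Γ] (z : Γ) (X : Type) [MulAction Γ X] (M : GMet X)
    (D L A T : ℕ) : Prop where
  hD : 1 ≤ D
  hL : 10000 * D ≤ L
  ne : Nonempty X
  central : ∀ g, g * z = z * g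
  inf : ∀ m : ℤ, z ^ m = 1 → m = 0
  iso : Iso Γ M
  ztriv : ∀ x : X, z • x = x
  hyp : M.Hyp D
  A1 : ∀ (g₁ g₂ : Γ) (x y : X), M.d x (g₁ • x) ≤ L → M.d y (g₁ • y) ≤ L →
    M.d x (g₂ • x) ≤ L → M.d y (g₂ • y) ≤ L → A ≤ M.d x y → CM z g₁ g₂
  A2 : ∀ (g : Γ) (x y : X), g ∉ Subgroup.zpowers z → FO z g →
    M.d x (g • x) ≤ L → M.d y (g • y) ≤ L → M.d x y < A
  A3 : ∀ g : Γ, ¬ FO z g → ∀ (x : X) (m : ℕ), m ≤ T * M.d x (g ^ m • x)

/-- All stage hypotheses. -/
structure StageHyp (Γ : Type) [Group Γ] (z : Γ) (X : Type) [MulAction Γ X] (M : GMet X)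
    (D L A T n : ℕ) : Prop extends PreStage Γ z X M D L A T where
  C1 : ∀ c : Γ, c ∉ Subgroup.zpowers z →
    ∃ k : Γ, ∀ g : Γ, CM z g c ↔ ∃ i j : ℤ, g = k ^ i * z ^ j
  C3 : ∀ g : Γ, g ∉ Subgroup.zpowers z → FO z g → ∃ k : Γ, k ^ n = z ∧ g ∈ Subgroup.zpowers k

/-- The family of the maximal cyclic (modulo `z`) subgroups which are killed in a step, with an
equivariant choice of generators `h j`. -/
structure JSys (Γ : Type) [Group Γ] (z : Γ) (X : Type) [MulAction Γ X] (M : GMet X)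
    (J : Type) [MulAction Γ J] (h : J → Γ) (l0 l1 : ℕ) : Prop where
  conj : ∀ (g : Γ) j, h (g • j) = g * h j * g⁻¹
  inf : ∀ j, ¬ FO z (h j)
  stab : ∀ (g : Γ) j, g • j = j ↔ ∃ a b : ℤ, g = h j ^ a * z ^ b
  cent : ∀ (g : Γ) j, CM z g (h j) ↔ ∃ a b : ℤ, g = h j ^ a * z ^ b
  uniq : ∀ i j (c : Γ), c ∉ Subgroup.zpowers z → (∃ a b : ℤ, c = h i ^ a * z ^ b) →
    (∃ a b : ℤ, c = h j ^ a * z ^ b) → i = j
  short : ∀ f : Γ, ¬ FO z f → (∃ x, M.d x (f • x) ≤ l0) → ∃ j, ∃ a b : ℤ, f = h j ^ a * z ^ b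
  ne : ∀ j, ∃ x, M.d x (h j • x) ≤ l1

end Stage

end Pool.Agent.Lib.MP_7f190d_al
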