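import Pool.Agent.Lib.MP_7f190d_al.Defs

/-!
# MP_7f190d_al, project Burnside: interfaces between the modules (statements only)

The paper proofs are in `Blueprint.md`, with the same names. No module needs more than the
definitions and the statements of the modules which it uses.
-/

set_option autoImplicit false

namespace Pool.Agent.Lib.MP_7f190d_al

/-! ## Module B (basic hyperbolic geometry) -/

/-- B1: geodesics exist; each point of `Btw` lies on one. -/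
def B1Statement : Prop := ∀ (V : Type) (M : GMet V) (x z y : V), M.Btw x z y →
  ∃ γ : ℕ → V, M.IsGeod γ x y ∧ γ (M.d x z) = z

/-- B2: thin triangles. -/
def B2Statement : Prop := ∀ (V : Type) (M : GMet V) (δ : ℕ), M.Hyp δ → ∀ x y z w : V,
  M.Btw x w y → ∃ w', (M.Btw x w' z ∨ M.Btw z w' y) ∧ M.d w w' ≤ 4 * δ

/-- B3: thin quadrilaterals, version with a bound `B`. -/
def B3Statement : Prop := ∀ (V : Type) (M : GMet V) (δ : ℕ), M.Hyp δ →
  ∀ (x y x' y' p p' : V) (B : ℕ), M.Btw x p y → M.Btw x' p' y' → M.d x p = M.d x' p' →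
    M.d p y = M.d p' y' → M.d x x' ≤ B + 2 * M.d x p → M.d y y' ≤ B + 2 * M.d p y →
    M.d x y' ≤ B + M.d x y → M.d y x' ≤ B + M.d x y → M.d p p' ≤ B + 4 * δ

/-- B4: a geodesic is logarithmically close to every path with the same endpoints. -/
def B4Statement : Prop := ∀ (V : Type) (M : GMet V) (δ : ℕ), M.Hyp δ →
  ∀ (K N : ℕ) (γ : ℕ → V) (s : V), N ≤ 2 ^ K → (∀ i < N, M.d (γ i) (γ (i + 1)) ≤ 1) →
    M.Btw (γ 0) s (γ N) → ∃ i ≤ N, M.d s (γ i) ≤ 4 * δ * K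

/-- B5: slim triangles imply the four point condition. -/
def B5Statement : Prop := ∀ (V : Type) (M : GMet V) (σ : ℕ),
  (∀ x y z w : V, M.Btw x w y → ∃ w', (M.Btw x w' z ∨ M.Btw z w' y) ∧ M.d w w' ≤ σ) →
    M.Hyp (2 * σ + 2)

/-! ## Module GG (guessing geodesics) -/

def GGStatement : Prop := ∀ h : ℕ, ∃ H δ : ℕ, ∀ (V : Type) (M : GMet V) (Lx : V → V → Set V),
  GGSys M Lx h → M.Hyp δ ∧ GClose M Lx H

/-! ## Module P (projections to quasi-convex sets) -/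

/-- P: everything about nearest points; `e = 100 * (δ + q + 1)`. -/
def PStatement : Prop := ∀ (X : Type) (M : GMet X) (δ q : ℕ) (Y : Set X), M.Hyp δ → M.QC Y q →
  ∀ e, e = 100 * (δ + q + 1) →
  -- (PP)
  (∀ x a y, M.Nst Y x a → y ∈ Y → M.d x a + M.d a y ≤ M.d x y + e) ∧
  -- (X1)
  (∀ x y a b, M.Nst Y x a → M.Nst Y y b → M.d a b ≤ M.d x y + e) ∧
  -- (X2)
  (∀ x y a b, M.Nst Y x a → M.Nst Y y b → e < M.d a b →
    (∃ p, M.Btw x p y ∧ M.d x p = M.d x a ∧ M.d p a ≤ e) ∧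
      M.d x a + M.d a b + M.d b y ≤ M.d x y + e) ∧
  -- (X3)
  (∀ x z y a c b, M.Btw x z y → M.Nst Y x a → M.Nst Y z c → M.Nst Y y b →
    M.d a c + M.d c b ≤ M.d a b + e) ∧
  -- (X4)
  (∀ x z y a c b, M.Btw x z y → M.Nst Y x a → M.Nst Y z c → M.Nst Y y b →
    (x ∈ Y ∨ e < M.d a c) → (y ∈ Y ∨ e < M.d c b) → M.d z c ≤ e) ∧
  -- (SEG)
  (∀ S z w y c b, 100 * e ≤ S → M.Nst Y z c → M.Nst Y y b → M.d z c ≤ e →
    (y ∈ Y ∨ 4 * S < M.d c b) → M.Btw z w y → M.d z w ≤ 2 * S → ∃ y' ∈ Y, M.d w y' ≤ 2 * e)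

/-! ## Module CO (the coned off graph) -/

/-- CO: the coned off graph is connected; its metric `MV` satisfies the following. -/
def COStatement : Prop := ∀ (X : Type) (C : ConeDat X), ∃ MV : GMet (CV C),
  -- edges
  (∀ u v, MV.d u v ≤ 1 ↔ (u = v ∨ CV.E u v ∨ CV.E v u)) ∧
  -- heights
  (∀ (j : C.J) u v, CV.htj j u ≤ CV.htj j v + MV.d u v) ∧
  (∀ u v, CV.ht u ≤ CV.ht v + MV.d u v) ∧
  -- vertical distances
  (∀ (j : C.J) y hy k l, k ≤ l → MV.d (CV.pt j y hy k) (CV.pt j y hy l) ≤ l - k) ∧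
  -- distances between points of `X`
  (∀ x x', C.S * MV.d (CV.base x) (CV.base x') ≤ C.M.d x x' + (C.S - 1)) ∧
  (∀ x x' k, k ≤ C.ρ → MV.d (CV.base x) (CV.base x') ≤ k → C.M.d x x' ≤ k * 2 ^ k * C.S) ∧
  -- centres
  (∀ a b, (∀ j, a ≠ CV.apex j) → (∀ j, b ≠ CV.apex j) → MV.d a b ≤ 1 →
    C.M.d (CV.ctr a) (CV.ctr b) ≤ 2 ^ C.ρ * C.S) ∧
  -- apexes
  (∀ x j, C.ρ + 1 ≤ MV.d (CV.base x) (CV.apex j)) ∧
  (∀ y j, y ∈ C.Y j → MV.d (CV.base y) (CV.apex j) ≤ C.ρ + 1) ∧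
  (∀ i j, i ≠ j → 2 * C.ρ + 2 ≤ MV.d (CV.apex i) (CV.apex j)) ∧
  (∀ j u, MV.d (CV.apex j) u = 1 → ∃ y hy, u = CV.pt j y hy C.ρ) ∧
  -- within a cone
  (∀ (j : C.J) (γ : ℕ → CV C) N, (∀ i < N, MV.d (γ i) (γ (i + 1)) ≤ 1) →
    0 < CV.htj j (γ 0) → (∀ i ≤ N, ∀ x, γ i ≠ CV.base x) → 0 < CV.htj j (γ N)) ∧
  (∀ (j : C.J) u, 0 < CV.htj j u → MV.d u (CV.apex j) ≤ C.ρ) ∧
  (∀ (j : C.J) u, C.ρ + 1 ≤ CV.htj j u + MV.d u (CV.apex j)) ∧
  (∀ u v, 2 * C.ρ + 1 ≤ MV.d u v → ∀ γ, MV.IsGeod γ u v → ∃ i ≤ 2 * C.ρ + 1, ∃ x,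
    γ i = CV.base x)

/-! ## Module L (the sets `L(u,v)` for the coned off graph) -/

/-- The hypotheses on the family `Y j`. -/
structure ConeHyp {X : Type} (C : ConeDat X) (δ q e : ℕ) : Prop where
  hyp : C.M.Hyp δ
  qc : ∀ j, C.M.QC (C.Y j) q
  he : e = 100 * (δ + q + 1)
  hSe : 100 * e ≤ C.S
  ov : ∀ i j, i ≠ j → ∀ x x', (∃ y ∈ C.Y i, C.M.d x y ≤ 2 * e) →
    (∃ y ∈ C.Y j, C.M.d x y ≤ 2 * e) → (∃ y ∈ C.Y i, C.M.d x' y ≤ 2 * e) →
    (∃ y ∈ C.Y j, C.M.d x' y ≤ 2 * e) → C.M.d x x' ≤ C.S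

/-- L: there are sets `Lx u v` which form a guessing system with the universal constant `30`, and
`Lx u v` contains the two full vertical segments of the cone `j` if the projections to `Y j` are
far apart. -/
def LStatement : Prop := ∀ (X : Type) (C : ConeDat X) (δ q e : ℕ), ConeHyp C δ q e →
  ∀ MV : GMet (CV C), (∀ u v, MV.d u v ≤ 1 ↔ (u = v ∨ CV.E u v ∨ CV.E v u)) →
    ∃ Lx : CV C → CV C → Set (CV C), GGSys MV Lx 30 ∧
      ∀ (j : C.J) u v hp hq,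
        2 ^ C.ρ * C.S < C.M.d (C.pr j (CV.ctr u)) (C.pr j (CV.ctr v)) →
          (∀ m, CV.htj j u ≤ m → m ≤ C.ρ + 1 → CV.pt j (C.pr j (CV.ctr u)) hp m ∈ Lx u v) ∧
          (∀ m, CV.htj j v ≤ m → m ≤ C.ρ + 1 → CV.pt j (C.pr j (CV.ctr v)) hq m ∈ Lx u v)

/-! ## Module K (geodesics through apexes, angles) -/

/-- K: the rotation system on the coned off graph. Here `b` is the lower bound for the displacement
of the rotations along `Y j`. -/
def KStatement : Prop := ∀ (X : Type) (C : ConeDat X) (δ q e : ℕ), ConeHyp C δ q e →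
  ∀ (MV : GMet (CV C)) (H t : ℕ) (Lx : CV C → CV C → Set (CV C)),
    -- all the properties of `COStatement` are available for `MV`, as it is determined by its edges
    (∀ u v, MV.d u v ≤ 1 ↔ (u = v ∨ CV.E u v ∨ CV.E v u)) →
    GClose MV Lx H →
    (∀ (j : C.J) u v hp hq,
        2 ^ C.ρ * C.S < C.M.d (C.pr j (CV.ctr u)) (C.pr j (CV.ctr v)) →
          (∀ m, CV.htj j u ≤ m → m ≤ C.ρ + 1 → CV.pt j (C.pr j (CV.ctr u)) hp m ∈ Lx u v) ∧
          (∀ m, CV.htj j v ≤ m → m ≤ C.ρ + 1 → CV.pt j (C.pr j (CV.ctr v)) hq m ∈ Lx u v)) →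
    100 * (H + 1) ≤ C.ρ → t = 100 * (H + 1) * 2 ^ C.ρ * C.S →
    ∀ (G : Type) [Group G] [MulAction G X] [MulAction G C.J] [MulAction G (CV C)]
      (rot : C.J → G) (b : ℕ),
      Iso G C.M →
      (∀ (g : G) x, g • (CV.base x : CV C) = CV.base (g • x)) →
      (∀ (g : G) (j : C.J), g • (CV.apex j : CV C) = CV.apex (g • j)) →
      (∀ (g : G) (j : C.J) y hy k hk, ∃ hy', g • (CV.cone j y hy k hk : CV C) =
        CV.cone (g • j) (g • y) hy' k hk) →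
      (∀ (g : G) (j : C.J), rot (g • j) = g * rot j * g⁻¹) → (∀ j : C.J, rot j • j = j) →
      (∀ (j : C.J) (k : ℤ) y, y ∈ C.Y j → b * k.natAbs ≤ C.M.d y (rot j ^ k • y)) →
      1000 * (t + 1) ≤ b →
      ∃ (ang : C.J → CV C → CV C → ℕ), RotSys G (CV C) C.J MV CV.apex rot ang (b - 2 * t) (3 * t)

/-! ## Module RT (the rotation theorem) -/

def RTStatement : Prop := ∀ (G V J : Type) [Group G] [MulAction G V] [MulAction G J] (M : GMet V)
  (apex : J → V) (rot : J → G) (ang : J → V → V → ℕ) (l θ : ℕ),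
    RotSys G V J M apex rot ang l θ → RotRed apex rot ang l

/-! ## Module Q (the quotient) -/

/-- Q1: the quotient of a group acting on a graph exists. -/
def Q1Statement : Prop := ∀ (G V : Type) [Group G] [MulAction G V] (M : GMet V) (R : Subgroup G),
  Iso G M → R.Normal → ∃ (G' V' : Type) (_ : Group G') (_ : MulAction G' V') (M' : GMet V')
    (π : G →* G') (p : V → V'), QuotData M M' R π p

/-- Q2: the quotient by the rotations is hyperbolic. -/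
def Q2Statement : Prop := ∀ (G V J : Type) [Group G] [MulAction G V] [MulAction G J] (M : GMet V)
  (apex : J → V) (rot : J → G) (ang : J → V → V → ℕ) (l θ : ℕ),
    RotSys G V J M apex rot ang l θ → RotRed apex rot ang l →
    (∀ j, ∃ x, (∀ i, x ≠ apex i) ∧ M.d (apex j) x = 1) →
  ∀ (G' V' : Type) [Group G'] [MulAction G' V'] (M' : GMet V') (π : G →* G') (p : V → V')
    (δ : ℕ), QuotData M M' (RotSub rot) π p → M.Hyp δ → M'.Hyp (δ + 1)

/-- Q3: elements of the rotation subgroup move points far, and stabilizers of apexes. -/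
def Q3Statement : Prop := ∀ (G V J : Type) [Group G] [MulAction G V] [MulAction G J] (M : GMet V)
  (apex : J → V) (rot : J → G) (ang : J → V → V → ℕ) (l θ : ℕ),
    RotSys G V J M apex rot ang l θ → RotRed apex rot ang l →
  (∀ r ∈ RotSub rot, r ≠ 1 → ∀ x, (∀ j, x ≠ apex j) → ∀ κ, (∀ j, κ ≤ M.d x (apex j)) →
    2 * κ ≤ M.d x (r • x)) ∧
  ((∀ j, ∃ x, (∀ i, x ≠ apex i) ∧ M.d (apex j) x = 1 ∧ ∀ i, i ≠ j → 2 ≤ M.d x (apex i)) →
    ∀ r ∈ RotSub rot, ∀ j, r • j = j → ∃ k : ℤ, r = rot j ^ k)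

/-! ## Module I (isometries of hyperbolic graphs) -/

/-- I1: an isometry which moves `x` and `y` by at most `R` maps the middle part of a geodesic into
a neighbourhood of this geodesic; `u` is any geodesic from `x` to `y`. -/
def I1Statement : Prop := ∀ (G V : Type) [Group G] [MulAction G V] (M : GMet V) (δ : ℕ),
  M.Hyp δ → Iso G M → ∀ (g : G) (x y p : V) (R : ℕ), M.d x (g • x) ≤ R → M.d y (g • y) ≤ R →
    M.Btw x p y → R + 10 * δ ≤ M.d x p → R + 10 * δ ≤ M.d p y →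
    ∃ q, M.Btw x q y ∧ M.d (g • p) q ≤ 10 * δ ∧ M.d x q ≤ M.d x p + R ∧
      M.d x p ≤ M.d x q + R + 10 * δ

/-- I2: the commutator of two isometries moves the points in the middle very little. -/
def I2Statement : Prop := ∀ (G V : Type) [Group G] [MulAction G V] (M : GMet V) (δ : ℕ),
  M.Hyp δ → Iso G M → ∀ (g f : G) (x y p : V) (R : ℕ),
    M.d x (g • x) ≤ R → M.d y (g • y) ≤ R → M.d x (f • x) ≤ R → M.d y (f • y) ≤ R →
    M.Btw x p y → 3 * R + 200 * δ ≤ M.d x p → 3 * R + 200 * δ ≤ M.d p y →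
    M.d p ((g * f * g⁻¹ * f⁻¹) • p) ≤ 200 * δ

/-- I3: the displacement decreases at speed 2 towards the points with small displacement. -/
def I3Statement : Prop := ∀ (G V : Type) [Group G] [MulAction G V] (M : GMet V) (δ : ℕ),
  M.Hyp δ → Iso G M → ∀ (g : G) (x y : V) (R : ℕ), M.d y (g • y) + 4 * δ ≤ R →
    ∃ x', M.d x' (g • x') ≤ R ∧ 2 * M.d x x' + R ≤ max (M.d x (g • x)) R + 4 * δ + 1

/-- I4: linear growth. -/
def I4Statement : Prop := ∀ (G V : Type) [Group G] [MulAction G V] (M : GMet V) (δ : ℕ),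
  M.Hyp δ → Iso G M → ∀ (g : G) (y : V) (s : ℕ), 1 ≤ s →
    M.d y (g • y) + 2 * δ + s ≤ M.d y (g ^ 2 • y) → ∀ (x : V) (k : ℕ), k * s ≤ M.d x (g ^ k • x)

/-- I5: minimal displacement and displacement of powers. -/
def I5Statement : Prop := ∀ (G V : Type) [Group G] [MulAction G V] (M : GMet V) (δ : ℕ),
  M.Hyp δ → Iso G M → ∀ (g : G) (m₀ : ℕ), (∀ y, m₀ ≤ M.d y (g • y)) →
    (4 * δ + 1 < m₀ → ∀ y, M.d y (g • y) = m₀ → 2 * m₀ ≤ M.d y (g ^ 2 • y) + 4 * δ) ∧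
    ∀ (x : V) (k : ℕ), k * m₀ ≤ M.d x (g ^ k • x) + k * (6 * δ + 1)

/-- I6: if some power moves some point very little, all the powers up to `T` have a common almost
fixed point. -/
def I6Statement : Prop := ∀ (G V : Type) [Group G] [MulAction G V] (M : GMet V) (δ : ℕ),
  M.Hyp δ → Iso G M → ∀ (g : G) (x : V) (T m : ℕ), T * M.d x (g ^ m • x) < m →
    ∃ p, ∀ k : ℤ, k.natAbs ≤ T → M.d p (g ^ k • p) ≤ 4 * δ + 3

/-- I7: elliptic isometries which move `x` and `y` by at most `R` move the middle points very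
little. -/
def I7Statement : Prop := ∀ (G V : Type) [Group G] [MulAction G V] (M : GMet V) (δ : ℕ),
  M.Hyp δ → Iso G M → ∀ (g : G) (x y p : V) (R : ℕ), (∃ m : ℕ, 1 ≤ m ∧ ∀ v : V, g ^ m • v = v) →
    M.d x (g • x) ≤ R → M.d y (g • y) ≤ R → M.Btw x p y → 2 * R + 100 * δ ≤ M.d x p →
    2 * R + 100 * δ ≤ M.d p y → M.d p (g • p) ≤ 50 * δ + 1

/-! ## Module Z (centralizers of elements of infinite order) -/

def ZStatement : Prop := ∀ (Γ : Type) [Group Γ] (z : Γ) (X : Type) [MulAction Γ X] (M : GMet X)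
  (D L A T : ℕ), PreStage Γ z X M D L A T → ∀ c : Γ, ¬ FO z c →
    ∃ k : Γ, ∀ g : Γ, CM z g c ↔ ∃ i j : ℤ, g = k ^ i * z ^ j

/-! ## Module W (consequences of the stage hypotheses) -/

/-- W1: (Γ2). -/
def W1Statement : Prop := ∀ (Γ : Type) [Group Γ] (z : Γ) (X : Type) [MulAction Γ X] (M : GMet X)
  (D L A T n : ℕ), Odd n → StageHyp Γ z X M D L A T n → ∀ c g : Γ, c ∉ Subgroup.zpowers z →
    CM z c (g * c * g⁻¹) → CM z g c

/-- W2: the commutation lemma, with large displacements. -/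
def W2Statement : Prop := ∀ (Γ : Type) [Group Γ] (z : Γ) (X : Type) [MulAction Γ X] (M : GMet X)
  (D L A T n : ℕ), Odd n → StageHyp Γ z X M D L A T n → ∀ (g f : Γ) (x y : X) (R : ℕ),
    M.d x (g • x) ≤ R → M.d y (g • y) ≤ R → M.d x (f • x) ≤ R → M.d y (f • y) ≤ R →
    A + 10 * R + 1000 * D ≤ M.d x y → CM z g f

/-- W3: elements of finite order, with large displacements. -/
def W3Statement : Prop := ∀ (Γ : Type) [Group Γ] (z : Γ) (X : Type) [MulAction Γ X] (M : GMet X)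
  (D L A T : ℕ), PreStage Γ z X M D L A T → ∀ (g : Γ) (x y : X) (R : ℕ),
    g ∉ Subgroup.zpowers z → FO z g → M.d x (g • x) ≤ R → M.d y (g • y) ≤ R →
    M.d x y < A + 10 * R + 1000 * D

/-- W4: the family which is killed. -/
def W4Statement : Prop := ∀ (Γ : Type) [Group Γ] (z : Γ) (X : Type) [MulAction Γ X] (M : GMet X)
  (D L A T n : ℕ), Odd n → StageHyp Γ z X M D L A T n →
    ∃ (J : Type) (_ : MulAction Γ J) (h : J → Γ), JSys Γ z X M J h (100 * D) (110 * D)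

/-- W5: the sets `Y j` are quasi-convex and have bounded overlap. -/
def W5Statement : Prop := ∀ (Γ : Type) [Group Γ] (z : Γ) (X : Type) [MulAction Γ X] (M : GMet X)
  (D L A T : ℕ), PreStage Γ z X M D L A T → ∀ (J : Type) [MulAction Γ J] (h : J → Γ),
    JSys Γ z X M J h (100 * D) (110 * D) →
    (∀ j, M.QC {x | M.d x (h j • x) ≤ 300 * D} (5 * D)) ∧
    (∀ i j, i ≠ j → ∀ x x', (∃ y, M.d y (h i • y) ≤ 300 * D ∧ M.d x y ≤ 1400 * D) →
      (∃ y, M.d y (h j • y) ≤ 300 * D ∧ M.d x y ≤ 1400 * D) →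
      (∃ y, M.d y (h i • y) ≤ 300 * D ∧ M.d x' y ≤ 1400 * D) →
      (∃ y, M.d y (h j • y) ≤ 300 * D ∧ M.d x' y ≤ 1400 * D) → M.d x x' ≤ A)

/-- W6: the points which are moved little by a power of `h j` are close to `Y j`. -/
def W6Statement : Prop := ∀ (Γ : Type) [Group Γ] (z : Γ) (X : Type) [MulAction Γ X] (M : GMet X)
  (D L A T : ℕ), PreStage Γ z X M D L A T → ∀ (J : Type) [MulAction Γ J] (h : J → Γ),
    JSys Γ z X M J h (100 * D) (110 * D) → ∀ (j : J) (g : Γ) (x : X) (R K : ℕ),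
      (∃ a b : ℤ, g = h j ^ a * z ^ b) → g ∉ Subgroup.zpowers z → M.d x (g • x) ≤ R →
      T * (700 * D + 1) * R ≤ 2 ^ K →
      ∃ y, M.d y (h j • y) ≤ 300 * D ∧ M.d x y ≤ R + 700 * D + 4 * D * K

/-! ## The context of one step -/

/-- Everything which is known in one step, after the construction of the coned off graph `V`, of
the normal subgroup `R` generated by the rotations `h j ^ n * z⁻¹` and of the quotient
`(Γ', V')`. -/
structure Ctx where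
  /-- the group -/
  Γ : Type
  [grpΓ : Group Γ]
  /-- the central element -/
  z : Γ
  /-- the graph -/
  X : Type
  [actX : MulAction Γ X]
  /-- its metric -/
  M : GMet X
  D : ℕ
  T : ℕ
  n : ℕ
  ρ : ℕ
  S : ℕ
  st : StageHyp Γ z X M D (10000 * D) S T n
  hn : Odd n
  /-- the index set of the cones -/
  J : Type
  [actJ : MulAction Γ J]
  /-- the generators -/
  h : J → Γ
  js : JSys Γ z X M J h (100 * D) (110 * D)
  /-- the coned off graph -/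
  V : Type
  [actV : MulAction Γ V]
  /-- its metric -/
  MV : GMet V
  base : X → V
  apex : J → V
  ctr : V → X
  isoV : Iso Γ MV
  zV : ∀ v : V, z • v = v
  base_eqv : ∀ (g : Γ) x, g • base x = base (g • x)
  apex_eqv : ∀ (g : Γ) j, g • apex j = apex (g • j)
  apex_inj : Function.Injective apex
  base_apex_ne : ∀ x j, base x ≠ apex j
  ctr_base : ∀ x, ctr (base x) = x
  ctr_eqv : ∀ (g : Γ) v, (∀ j, v ≠ apex j) → ctr (g • v) = g • ctr v
  ctr_step : ∀ a b, (∀ j, a ≠ apex j) → (∀ j, b ≠ apex j) → MV.d a b ≤ 1 →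
    M.d (ctr a) (ctr b) ≤ 2 ^ ρ * S
  base_lower : ∀ x x' k, k ≤ ρ → MV.d (base x) (base x') ≤ k → M.d x x' ≤ k * 2 ^ k * S
  base_upper : ∀ x x', S * MV.d (base x) (base x') ≤ M.d x x' + (S - 1)
  base_apex : ∀ x j, ρ + 1 ≤ MV.d (base x) (apex j)
  Y_apex : ∀ j y, M.d y (h j • y) ≤ 300 * D → MV.d (base y) (apex j) ≤ ρ + 1
  apex_apex : ∀ i j, i ≠ j → 2 * ρ + 2 ≤ MV.d (apex i) (apex j)
  geod_base : ∀ u v, 2 * ρ + 1 ≤ MV.d u v → ∀ γ, MV.IsGeod γ u v →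
    ∃ i ≤ 2 * ρ + 1, ∃ x, γ i = base x
  /-- the subgroup generated by the rotations -/
  R : Subgroup Γ
  R_normal : R.Normal
  R_rel : ∀ j, h j ^ n * z⁻¹ ∈ R
  R_inj : ∀ r ∈ R, r ≠ 1 → ∀ x, (∀ j, x ≠ apex j) → ∀ κ, (∀ j, κ ≤ MV.d x (apex j)) →
    2 * κ ≤ MV.d x (r • x)
  R_stab : ∀ r ∈ R, ∀ j, r • j = j → ∃ k : ℤ, r = (h j ^ n * z⁻¹) ^ k
  /-- the quotient group -/
  Γ' : Type
  [grpΓ' : Group Γ']
  /-- the quotient graph -/
  V' : Type
  [actV' : MulAction Γ' V']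
  M' : GMet V'
  π : Γ →* Γ'
  p : V → V'
  quot : QuotData MV M' R π p
  hyp' : M'.Hyp D
  -- numerical conditions
  hρ : 100000 * D ≤ ρ
  hS : 100 * (ρ + 10004 * D * 2 ^ (10004 * D) + 10) ≤ S
  hS' : 70000 * D ≤ S
  hlog : ∃ K, T * (700 * D + 1) * (10004 * D * 2 ^ (10004 * D) * S) ≤ 2 ^ K ∧ 4 * D * K ≤ S
  hT : 10004 * D * 2 ^ ρ * S < T

attribute [instance] Ctx.grpΓ Ctx.actX Ctx.actJ Ctx.actV Ctx.grpΓ' Ctx.actV'

/-! ## Module S (the new stage satisfies the hypotheses) -/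

/-- S1: basic facts. -/
def S1Statement : Prop := ∀ C : Ctx,
  (∀ g, g * C.π C.z = C.π C.z * g) ∧ (∀ m : ℤ, (C.π C.z) ^ m = 1 → m = 0) ∧ Iso C.Γ' C.M' ∧
  (∀ v : C.V', C.π C.z • v = v) ∧
  -- distinct apexes
  (∀ i j, C.p (C.apex i) ≠ C.p (C.apex j) →
    2 * C.ρ + 2 ≤ C.M'.d (C.p (C.apex i)) (C.p (C.apex j))) ∧
  -- stabilizers of apexes
  (∀ (g : C.Γ') j, g • C.p (C.apex j) = C.p (C.apex j) →
    g ∈ Subgroup.zpowers (C.π (C.h j))) ∧
  -- almost fixed apexes are fixed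
  (∀ (g : C.Γ') j a, C.M'.d a (C.p (C.apex j)) ≤ 10004 * C.D + 1 → C.M'.d a (g • a) ≤ 10004 * C.D →
    g • C.p (C.apex j) = C.p (C.apex j)) ∧
  -- lifts of group elements: existence and uniqueness
  (∀ (g : C.Γ') (a : C.V), ∃ f : C.Γ, C.π f = g ∧ C.MV.d a (f • a) = C.M'.d (C.p a) (g • C.p a)) ∧
  (∀ (f f' : C.Γ) (a : C.V), C.π f = C.π f' → (∀ j, 10004 * C.D + 2 ≤ C.MV.d a (C.apex j)) →
    C.MV.d (f • a) (f' • a) ≤ 2 * (10004 * C.D) + 3 → f = f') ∧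
  -- lifts of points close to apexes
  (∀ (a : C.V) j, ∃ i, C.p (C.apex i) = C.p (C.apex j) ∧
    C.MV.d a (C.apex i) = C.M'.d (C.p a) (C.p (C.apex j))) ∧
  -- lifts of geodesics
  (∀ (a : C.V) (v : C.V') (γ' : ℕ → C.V'), C.M'.IsGeod γ' (C.p a) v → ∃ γ : ℕ → C.V, γ 0 = a ∧
    (∀ i ≤ C.M'.d (C.p a) v, C.p (γ i) = γ' i) ∧
    (∀ i j, i ≤ j → j ≤ C.M'.d (C.p a) v → C.MV.d (γ i) (γ j) = j - i))

/-- S2: lifting along a path. -/
def S2Statement : Prop := ∀ C : Ctx, ∀ (g : C.Γ') (f : C.Γ) (N : ℕ) (γ : ℕ → C.V),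
  C.π f = g → (∀ i < N, C.MV.d (γ i) (γ (i + 1)) ≤ 1) →
  (∀ i ≤ N, ∀ j, 10004 * C.D + 2 ≤ C.MV.d (γ i) (C.apex j)) →
  (∀ i ≤ N, C.M'.d (C.p (γ i)) (g • C.p (γ i)) ≤ 10004 * C.D) →
  C.MV.d (γ 0) (f • γ 0) ≤ 10004 * C.D → ∀ i ≤ N, C.MV.d (γ i) (f • γ i) ≤ 10004 * C.D

/-- S3: (A3) for the quotient. -/
def S3Statement : Prop := ∀ C : Ctx, ∀ g : C.Γ', ¬ FO (C.π C.z) g → ∀ (x : C.V') (m : ℕ),
  m ≤ C.T * C.M'.d x (g ^ m • x)

/-- S4: the dichotomy for elements of finite order, and (Γ3) for the quotient. -/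
def S4Statement : Prop := ∀ C : Ctx, ∀ g : C.Γ', g ∉ Subgroup.zpowers (C.π C.z) →
  FO (C.π C.z) g →
  ((∃ j, g • C.p (C.apex j) = C.p (C.apex j)) ∨
    ∃ (a : C.V) (f : C.Γ), (∀ j, 10004 * C.D + 2 ≤ C.MV.d a (C.apex j)) ∧ C.π f = g ∧
      f ∉ Subgroup.zpowers C.z ∧ FO C.z f ∧
      (∀ k : ℤ, C.MV.d a (f ^ k • a) ≤ 4 * C.D + 3) ∧
      (∀ k : ℤ, C.M'.d (C.p a) (g ^ k • C.p a) ≤ 4 * C.D + 3)) ∧
  (∃ k : C.Γ', k ^ C.n = C.π C.z ∧ g ∈ Subgroup.zpowers k)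

/-- S5: Claim U: an element outside `⟨z⟩` fixes at most one apex. -/
def S5Statement : Prop := ∀ C : Ctx, ∀ (g : C.Γ') (i j : C.J), g ∉ Subgroup.zpowers (C.π C.z) →
  g • C.p (C.apex i) = C.p (C.apex i) → g • C.p (C.apex j) = C.p (C.apex j) →
    C.p (C.apex i) = C.p (C.apex j)

/-- S6: Claim F: points which are moved little by a rotation are close to the apex. -/
def S6Statement : Prop := ∀ C : Ctx, ∀ (g : C.Γ') (j : C.J) (x : C.V'),
  g ∉ Subgroup.zpowers (C.π C.z) → g • C.p (C.apex j) = C.p (C.apex j) →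
  C.M'.d x (g • x) ≤ 10000 * C.D →
    C.M'.d x (C.p (C.apex j)) ≤ 3 * C.ρ + 10004 * C.D * 2 ^ (10004 * C.D) + 10

/-- S7: (A2) for the quotient. -/
def S7Statement : Prop := ∀ C : Ctx, ∀ (g : C.Γ') (x y : C.V'),
  g ∉ Subgroup.zpowers (C.π C.z) → FO (C.π C.z) g → C.M'.d x (g • x) ≤ 10000 * C.D →
  C.M'.d y (g • y) ≤ 10000 * C.D → C.M'.d x y < C.S

/-- S8: (A1) for the quotient. -/
def S8Statement : Prop := ∀ C : Ctx, ∀ (g₁ g₂ : C.Γ') (x y : C.V'),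
  C.M'.d x (g₁ • x) ≤ 10000 * C.D → C.M'.d y (g₁ • y) ≤ 10000 * C.D →
  C.M'.d x (g₂ • x) ≤ 10000 * C.D → C.M'.d y (g₂ • y) ≤ 10000 * C.D → C.S ≤ C.M'.d x y →
  CM (C.π C.z) g₁ g₂

/-- S9: (Γ1) for elements of finite order of the quotient. -/
def S9Statement : Prop := ∀ C : Ctx, ∀ c : C.Γ', c ∉ Subgroup.zpowers (C.π C.z) →
  FO (C.π C.z) c → ∃ k : C.Γ', ∀ g : C.Γ', CM (C.π C.z) g c ↔ ∃ i j : ℤ, g = k ^ i * (C.π C.z) ^ j

/-- S10: the new stage. -/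
def S10Statement : Prop := ∀ C : Ctx,
  StageHyp C.Γ' (C.π C.z) C.V' C.M' C.D (10000 * C.D) C.S C.T C.n ∧
  ∀ x₀ : C.X,
    (∀ g : C.Γ, C.π g = 1 → g ≠ 1 → 5 ≤ C.M.d x₀ (g • x₀)) ∧
    (∀ g : C.Γ, 2 * C.M'.d (C.p (C.base x₀)) (C.π g • C.p (C.base x₀)) ≤
      C.M.d x₀ (g • x₀) + 1) ∧
    (∀ g : C.Γ, C.M.d x₀ (g • x₀) ≤ 1 → FO (C.π C.z) (C.π g))

/-! ## Module STEP (one step) -/

/-- The constants. -/
structure ConstOK (D S T n : ℕ) : Prop where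
  hn : Odd n
  /-- base case -/
  hT : 1 ≤ T
  hS : 1000000 * D ≤ S
  step : ∀ (Γ : Type) [Group Γ] (z : Γ) (X : Type) [MulAction Γ X] (M : GMet X) (x₀ : X),
    StageHyp Γ z X M D (10000 * D) S T n →
    ∃ (Γ' : Type) (_ : Group Γ') (z' : Γ') (X' : Type) (_ : MulAction Γ' X') (M' : GMet X')
      (x₀' : X') (f : Γ →* Γ'),
      StageHyp Γ' z' X' M' D (10000 * D) S T n ∧ Function.Surjective f ∧ f z = z' ∧
      (∀ g : Γ, f g = 1 → g ≠ 1 → 5 ≤ M.d x₀ (g • x₀)) ∧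
      (∀ g : Γ, 2 * M'.d x₀' (f g • x₀') ≤ M.d x₀ (g • x₀) + 1) ∧
      (∀ g : Γ, M.d x₀ (g • x₀) ≤ 1 → FO z' (f g))

/-- STEP: for all large odd `n` the step can be done. -/
def StepStatement : Prop := ∃ D S T n₀ : ℕ, 1 ≤ D ∧ ∀ n, n₀ ≤ n → Odd n → ConstOK D S T n

/-! ## Module F (the free group) -/

def FStatement : Prop := ∀ (D A T n : ℕ), 1 ≤ D → 1 ≤ T → 1000000 * D ≤ A → 1 ≤ n →
  ∃ (Γ : Type) (_ : Group Γ) (z : Γ) (X : Type) (_ : MulAction Γ X) (M : GMet X) (x₀ : X)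
    (a b : Γ), StageHyp Γ z X M D (10000 * D) A T n ∧ ¬ CM z a b ∧
      M.d x₀ ((a * b * a⁻¹ * b⁻¹) • x₀) ≤ 4

/-! ## Module T (the limit) -/

/-- The group which we are looking for. -/
def AExists (n : ℕ) : Prop := ∃ (A : Type) (_ : Group A) (d : A), (∀ g, g * d = d * g) ∧
  (∀ m : ℤ, d ^ m = 1 → m = 0) ∧ (∀ g : A, ∀ m : ℕ, 1 ≤ m → g ^ m = 1 → g = 1) ∧
  (∀ g : A, g ^ n ∈ Subgroup.zpowers d) ∧ ∃ a b : A, a * b ≠ b * a

def TStatement : Prop := ∀ D S T n : ℕ, 1 ≤ D → ConstOK D S T n → FStatement → AExists n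

/-! ## Module G (the topological group) -/

def GStatement : Prop := ∀ p k : ℕ, p.Prime → AExists (p ^ k) →
    ∃ (G : Type) (_ : Group G) (tG : TopologicalSpace G),
      IsTopologicalGroup G ∧ T2Space G ∧ LocallyCompactSpace G ∧
      ¬ DiscreteTopology G ∧
      Subgroup.center G ≠ ⊥ ∧ Subgroup.center G ≠ ⊤ ∧
      ∀ H : Subgroup G, ∀ τ : TopologicalSpace H,
        @IsTopologicalGroup H τ _ → @T2Space H τ →
        TopologicalSpace.induced (Subtype.val : H → G) tG ≤ τ →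
        τ = TopologicalSpace.induced (Subtype.val : H → G) tG

end Pool.Agent.Lib.MP_7f190d_al
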